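import Pool.Agent.D0H71.LB.Key

set_option autoImplicit false

/-!
# The number of the elements of a family which are close to fractions with a given denominator
-/

open Finset hiding box
open Filter Topology

namespace Pool.Agent.D0H71.LB

open Pool.Agent.N965 Pool.Agent.N965.LN

/-- the coefficient vectors `(a₀, a)`, `0 ≤ a₀ < b`, `|a i| ≤ H` -/
noncomputable def co (m b H : ℕ) : Finset (ℤ × (Fin m → ℤ)) := (Ico (0 : ℤ) b) ×ˢ box m H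

/-- the coefficient vectors for which the number is close to a fraction with the denominator `q` -/
noncomputable def Vb {m : ℕ} (ξ : Fin m → ℝ) (b H q : ℕ) (δ : ℝ) : Finset (ℤ × (Fin m → ℤ)) :=
  (co m b H).filter fun x => dn ((q : ℝ) * num ξ b x.1 x.2) ≤ δ

theorem card_box (m H : ℕ) : (LN.box m H).card = (2 * H + 1) ^ m := by
  unfold LN.box
  rw [Fintype.card_piFinset_const, Int.card_Icc]
  congr 1
  omega

theorem card_co (m b H : ℕ) : (co m b H).card = b * (2 * H + 1) ^ m := by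
  unfold co
  rw [Finset.card_product, card_box, Int.card_Ico]
  simp

theorem card_Vb_le {m : ℕ} (ξ : Fin m → ℝ) (b H q : ℕ) (δ : ℝ) :
    (Vb ξ b H q δ).card ≤ ∑ a ∈ box m H, ((Icc (-(b : ℤ)) b).filter fun a₀ : ℤ =>
      dn ((q : ℝ) * (((a₀ : ℝ) + ∑ i, (a i : ℝ) * ξ i) / b)) ≤ δ).card := by
  classical
  have h1 : (Vb ξ b H q δ).card ≤ (((Icc (-(b : ℤ)) b) ×ˢ box m H).filter fun x =>
      dn ((q : ℝ) * num ξ b x.1 x.2) ≤ δ).card := by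
    apply Finset.card_le_card
    unfold Vb co
    apply Finset.filter_subset_filter
    apply Finset.product_subset_product_left
    intro x hx
    rw [Finset.mem_Ico] at hx
    rw [Finset.mem_Icc]
    omega
  refine h1.trans (le_of_eq ?_)
  simp_rw [Finset.card_filter]
  rw [Finset.sum_product_right]
  rfl

theorem card_Vb (hRES : S_RES) (hFEJ : S_FEJ) {m : ℕ} (ξ : Fin m → ℝ) (b H q : ℕ) (δ : ℝ)
    (hb : 1 ≤ b) (hH : 1 ≤ H) (hq : 1 ≤ q) (hδ : 0 < δ) :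
    ((Vb ξ b H q δ).card : ℝ) ≤ 16 * b * δ * (3 * (H : ℝ)) ^ m +
      (40 * b * δ * (4 * (H : ℝ)) ^ m +
        80 * b * δ * Sv ξ H (((b / Nat.gcd b q : ℕ) : ℝ) * δ) (q / Nat.gcd b q)) := by
  classical
  have hH' : (1 : ℝ) ≤ H := by exact_mod_cast hH
  set g := Nat.gcd b q with hg
  have hg1 : 0 < g := Nat.gcd_pos_of_pos_left q hb
  have hb' : 1 ≤ b / g := Nat.div_pos (Nat.le_of_dvd hb (Nat.gcd_dvd_left b q)) hg1
  have hb'' : (0 : ℝ) < ((b / g : ℕ) : ℝ) := by exact_mod_cast hb'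
  have hS := Sv_nonneg ξ H (((b / g : ℕ) : ℝ) * δ) (q / g)
  have h0 : ((Vb ξ b H q δ).card : ℝ) ≤ ((∑ a ∈ box m H, ((Icc (-(b : ℤ)) b).filter fun a₀ : ℤ =>
      dn ((q : ℝ) * (((a₀ : ℝ) + ∑ i, (a i : ℝ) * ξ i) / b)) ≤ δ).card : ℕ) : ℝ) := by
    exact_mod_cast card_Vb_le ξ b H q δ
  refine h0.trans ?_
  push_cast
  have h1 : ∀ a ∈ box m H, ((((Icc (-(b : ℤ)) b).filter fun a₀ : ℤ =>
      dn ((q : ℝ) * (((a₀ : ℝ) + ∑ i, (a i : ℝ) * ξ i) / b)) ≤ δ).card : ℕ) : ℝ) ≤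
      16 * b * δ + if dn (((q / g : ℕ) : ℝ) * ∑ i, (a i : ℝ) * ξ i) ≤ ((b / g : ℕ) : ℝ) * δ ∧
      ((b / g : ℕ) : ℝ) * δ < 1 / 2 then 4 * b / ((b / g : ℕ) : ℝ) else 0 :=
    fun a _ => hRES _ δ b q b hb le_rfl hq hδ
  refine (Finset.sum_le_sum h1).trans ?_
  rw [Finset.sum_add_distrib, Finset.sum_const, nsmul_eq_mul]
  have h2 : ((box m H).card : ℝ) * (16 * b * δ) ≤ 16 * b * δ * (3 * (H : ℝ)) ^ m := by
    rw [mul_comm]
    exact mul_le_mul_of_nonneg_left (card_box_le m H hH) (by positivity)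
  refine add_le_add h2 ?_
  by_cases hρ : ((b / g : ℕ) : ℝ) * δ < 1 / 2
  · simp only [hρ, and_true]
    rw [← Finset.sum_filter, Finset.sum_const, nsmul_eq_mul]
    have h3 := hFEJ m H (fun i => ((q / g : ℕ) : ℝ) * ξ i) (((b / g : ℕ) : ℝ) * δ) hH
      (by positivity) hρ.le
    have h4 : ((box m H).filter fun a =>
        dn (((q / g : ℕ) : ℝ) * ∑ i, (a i : ℝ) * ξ i) ≤ ((b / g : ℕ) : ℝ) * δ) =
        ((box m H).filter fun a =>
        dn (∑ i, (a i : ℝ) * (((q / g : ℕ) : ℝ) * ξ i)) ≤ ((b / g : ℕ) : ℝ) * δ) := by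
      refine Finset.filter_congr fun a _ => ?_
      have : ((q / g : ℕ) : ℝ) * ∑ i, (a i : ℝ) * ξ i =
          ∑ i, (a i : ℝ) * (((q / g : ℕ) : ℝ) * ξ i) := by
        rw [Finset.mul_sum]
        exact Finset.sum_congr rfl fun i _ => by ring
      rw [this]
    rw [h4]
    have h5 : ∑ v ∈ Icc 1 ⌊1 / (2 * (((b / g : ℕ) : ℝ) * δ))⌋₊,
        ∏ i, KK H ((v : ℝ) * (((q / g : ℕ) : ℝ) * ξ i)) =
        Sv ξ H (((b / g : ℕ) : ℝ) * δ) (q / g) := by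
      unfold Sv
      refine Finset.sum_congr rfl fun v _ => Finset.prod_congr rfl fun i _ => ?_
      congr 1
      rw [Nat.cast_mul]
      ring
    rw [h5] at h3
    have h6 : (0 : ℝ) ≤ 4 * b / ((b / g : ℕ) : ℝ) := by positivity
    refine (mul_le_mul_of_nonneg_right h3 h6).trans (le_of_eq ?_)
    have h7 : ((b / g : ℕ) : ℝ) ≠ 0 := hb''.ne'
    generalize ((b / g : ℕ) : ℝ) = B at *
    field_simp
    ring
  · simp only [hρ, and_false, if_false, Finset.sum_const_zero]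
    positivity

/-- the sum over the denominators `q`, arranged by the greatest common divisor with `b` -/
theorem sum_gcd (b X : ℕ) (hb : 1 ≤ b) (Φ : ℕ → ℕ → ℝ) (hΦ : ∀ g t, 0 ≤ Φ g t) :
    ∑ q ∈ Icc 1 X, Φ (Nat.gcd b q) (q / Nat.gcd b q) ≤
      ∑ g ∈ b.divisors, ∑ t ∈ Icc 1 (X / g), Φ g t := by
  classical
  have h1 : ∀ q ∈ Icc 1 X, Nat.gcd b q ∈ b.divisors := fun q _ =>
    Nat.mem_divisors.2 ⟨Nat.gcd_dvd_left b q, by omega⟩
  rw [← Finset.sum_fiberwise_of_maps_to h1]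
  refine Finset.sum_le_sum fun g hg => ?_
  have hg0 : 0 < g := Nat.pos_of_mem_divisors hg
  have h2 : ∑ q ∈ (Icc 1 X).filter (fun q => Nat.gcd b q = g), Φ (Nat.gcd b q) (q / Nat.gcd b q) =
      ∑ q ∈ (Icc 1 X).filter (fun q => Nat.gcd b q = g), Φ g (q / g) := by
    refine Finset.sum_congr rfl fun q hq => ?_
    rw [Finset.mem_filter] at hq
    rw [hq.2]
  rw [h2]
  have h3 : ∀ q ∈ (Icc 1 X).filter (fun q => Nat.gcd b q = g), g * (q / g) = q := by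
    intro q hq
    rw [Finset.mem_filter] at hq
    apply Nat.mul_div_cancel'
    rw [← hq.2]
    exact Nat.gcd_dvd_right b q
  have h4 : Set.InjOn (fun q : ℕ => q / g)
      (((Icc 1 X).filter (fun q => Nat.gcd b q = g) : Finset ℕ) : Set ℕ) := by
    intro q hq q' hq' h
    have h5 := h3 q hq
    have h6 := h3 q' hq'
    simp only at h
    rw [← h5, ← h6, h]
  rw [← Finset.sum_image (f := fun t => Φ g t) h4]
  refine Finset.sum_le_sum_of_subset_of_nonneg ?_ fun t _ _ => hΦ g t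
  intro t ht
  rw [Finset.mem_image] at ht
  obtain ⟨q, hq, rfl⟩ := ht
  have h5 := h3 q hq
  rw [Finset.mem_filter, Finset.mem_Icc] at hq
  rw [Finset.mem_Icc]
  refine ⟨?_, Nat.div_le_div_right hq.1.2⟩
  rcases Nat.eq_zero_or_pos (q / g) with h7 | h7
  · exfalso
    rw [h7, Nat.mul_zero] at h5
    omega
  · exact h7

/-- the sum over all denominators `q ≤ X` -/
theorem sum_Vb (hRES : S_RES) (hFEJ : S_FEJ) (hPS : S_PS) (hPSI : S_PSI) {m : ℕ}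
    (ξ : Fin m → ℝ) (hFT : FT ξ) (τ : ℝ) (hτ : 0 < τ) (hτ1 : τ ≤ 1) (ψ : ℕ → ℝ)
    (hψ0 : ∀ n, 0 < ψ n) (hψ : Antitone ψ) (hs : Summable ψ) (D : ℝ) (hD : 0 < D)
    (hDψ : ∀ n : ℕ, 1 ≤ n → (n : ℝ) ^ (-(1 + τ)) ≤ D * ψ n) (c : ℝ) (hc : 0 < c) :
    ∃ C : ℝ, 0 < C ∧ ∀ b H X : ℕ, 1 ≤ b → 1 ≤ H → 1 ≤ X →
      ∑ q ∈ Icc 1 X, ((Vb ξ b H q (c * ψ q)).card : ℝ) ≤
        (16 * 3 ^ m + 40 * 4 ^ m) * c * (∑' n, ψ n) * (b * (H : ℝ) ^ m) +
          C * ((H : ℝ) ^ τ * (X : ℝ) ^ (1 + 4 * τ)) := by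
  classical
  obtain ⟨K, hK, hkey⟩ := key hPS hPSI ξ hFT τ hτ hτ1 ψ hψ0 hψ hs D hD hDψ c hc
  obtain ⟨Cd, hCd, hdiv⟩ := Pool.Agent.H510R2.divisor_bound τ hτ
  set Ψ := ∑' n, ψ n with hΨ
  refine ⟨80 * c * (K * Cd) + 1, by positivity, ?_⟩
  intro b H X hb hH hX
  have hb0 : (0 : ℝ) < b := by exact_mod_cast (show 0 < b by omega)
  have hH0 : (0 : ℝ) < H := by exact_mod_cast (show 0 < H by omega)
  have hX0 : (0 : ℝ) < X := by exact_mod_cast (show 0 < X by omega)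
  set Φ : ℕ → ℕ → ℝ := fun g t => (H : ℝ) * ψ (g * t) * Sv ξ H (((b / g : ℕ) : ℝ) * (c * ψ (g * t))) t
    with hΦ
  have hΦ0 : ∀ g t, 0 ≤ Φ g t := by
    intro g t
    have h1 := hψ0 (g * t)
    have h2 := Sv_nonneg ξ H (((b / g : ℕ) : ℝ) * (c * ψ (g * t))) t
    simp only [hΦ]
    positivity
  have h1 : ∀ q ∈ Icc 1 X, ((Vb ξ b H q (c * ψ q)).card : ℝ) ≤
      (16 * 3 ^ m + 40 * 4 ^ m) * c * (b * (H : ℝ) ^ m) * ψ q +
        80 * c * (b / H) * Φ (Nat.gcd b q) (q / Nat.gcd b q) := by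
    intro q hq
    rw [mem_Icc] at hq
    have h2 := card_Vb hRES hFEJ ξ b H q (c * ψ q) hb hH hq.1 (mul_pos hc (hψ0 q))
    have h3 : Nat.gcd b q * (q / Nat.gcd b q) = q := Nat.mul_div_cancel' (Nat.gcd_dvd_right b q)
    simp only [hΦ]
    rw [h3]
    refine h2.trans (le_of_eq ?_)
    rw [mul_pow, mul_pow]
    field_simp
    ring
  have h2 : ∑ q ∈ Icc 1 X, ψ q ≤ Ψ := hs.sum_le_tsum _ fun n _ => (hψ0 n).le
  have h3 : ∀ g ∈ b.divisors, ∑ t ∈ Icc 1 (X / g), Φ g t ≤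
      K * ((H : ℝ) ^ (1 + τ) * (X : ℝ) ^ (1 + 4 * τ)) * ((b : ℝ) ^ (1 + τ))⁻¹ := by
    intro g hg
    have hg0 : 0 < g := Nat.pos_of_mem_divisors hg
    have hgb : g ∣ b := Nat.dvd_of_mem_divisors hg
    have h4 : 1 ≤ b / g := Nat.div_pos (Nat.le_of_dvd hb hgb) hg0
    have h5 := hkey H X g (b / g) hH hX hg0 h4
    have h6 : ((g : ℝ) ^ (1 + τ))⁻¹ * ((((b / g : ℕ) : ℝ)) ^ (1 + τ))⁻¹ = ((b : ℝ) ^ (1 + τ))⁻¹ := by
      rw [← mul_inv, ← Real.mul_rpow (by positivity) (by positivity)]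
      congr 2
      have h7 : g * (b / g) = b := Nat.mul_div_cancel' hgb
      exact_mod_cast h7
    rw [h6] at h5
    exact h5
  have h4 := sum_gcd b X hb Φ hΦ0
  have h5 : ∑ q ∈ Icc 1 X, Φ (Nat.gcd b q) (q / Nat.gcd b q) ≤
      (b.divisors.card : ℝ) * (K * ((H : ℝ) ^ (1 + τ) * (X : ℝ) ^ (1 + 4 * τ)) *
        ((b : ℝ) ^ (1 + τ))⁻¹) := by
    refine h4.trans ((Finset.sum_le_sum h3).trans (le_of_eq ?_))
    rw [Finset.sum_const, nsmul_eq_mul]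
  have h6 : (b / H : ℝ) * ((b.divisors.card : ℝ) * (K * ((H : ℝ) ^ (1 + τ) * (X : ℝ) ^ (1 + 4 * τ)) *
        ((b : ℝ) ^ (1 + τ))⁻¹)) ≤ K * Cd * ((H : ℝ) ^ τ * (X : ℝ) ^ (1 + 4 * τ)) := by
    have h7 : (H : ℝ) ^ (1 + τ) = H * (H : ℝ) ^ τ := by rw [Real.rpow_add hH0, Real.rpow_one]
    have h8 : (b : ℝ) ^ (1 + τ) = b * (b : ℝ) ^ τ := by rw [Real.rpow_add hb0, Real.rpow_one]
    have hbτ : 0 < (b : ℝ) ^ τ := Real.rpow_pos_of_pos hb0 _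
    have h9 : (b / H : ℝ) * ((b.divisors.card : ℝ) * (K * ((H : ℝ) ^ (1 + τ) * (X : ℝ) ^ (1 + 4 * τ)) *
        ((b : ℝ) ^ (1 + τ))⁻¹)) = (K * ((H : ℝ) ^ τ * (X : ℝ) ^ (1 + 4 * τ))) *
          ((b.divisors.card : ℝ) / (b : ℝ) ^ τ) := by
      rw [h7, h8]
      field_simp
    rw [h9]
    have h10 : (b.divisors.card : ℝ) / (b : ℝ) ^ τ ≤ Cd := by
      rw [div_le_iff₀ hbτ]
      exact hdiv b hb
    have h11 : 0 ≤ K * ((H : ℝ) ^ τ * (X : ℝ) ^ (1 + 4 * τ)) := by positivity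
    refine (mul_le_mul_of_nonneg_left h10 h11).trans (le_of_eq ?_)
    ring
  have hA : (0 : ℝ) ≤ (16 * 3 ^ m + 40 * 4 ^ m) * c * (b * (H : ℝ) ^ m) := by positivity
  calc ∑ q ∈ Icc 1 X, ((Vb ξ b H q (c * ψ q)).card : ℝ) ≤
      ∑ q ∈ Icc 1 X, ((16 * 3 ^ m + 40 * 4 ^ m) * c * (b * (H : ℝ) ^ m) * ψ q +
        80 * c * (b / H) * Φ (Nat.gcd b q) (q / Nat.gcd b q)) := Finset.sum_le_sum h1
    _ = (16 * 3 ^ m + 40 * 4 ^ m) * c * (b * (H : ℝ) ^ m) * ∑ q ∈ Icc 1 X, ψ q +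
        80 * c * ((b / H) * ∑ q ∈ Icc 1 X, Φ (Nat.gcd b q) (q / Nat.gcd b q)) := by
        rw [Finset.sum_add_distrib, ← Finset.mul_sum, ← Finset.mul_sum]
        ring
    _ ≤ (16 * 3 ^ m + 40 * 4 ^ m) * c * (b * (H : ℝ) ^ m) * Ψ +
        80 * c * (K * Cd * ((H : ℝ) ^ τ * (X : ℝ) ^ (1 + 4 * τ))) := by
        refine add_le_add (mul_le_mul_of_nonneg_left h2 hA) ?_
        refine mul_le_mul_of_nonneg_left ?_ (by positivity)
        refine le_trans (mul_le_mul_of_nonneg_left h5 (by positivity)) h6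
    _ ≤ _ := by
        have h7 : 0 ≤ (H : ℝ) ^ τ * (X : ℝ) ^ (1 + 4 * τ) := by positivity
        nlinarith

end Pool.Agent.D0H71.LB
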