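import Pool.Agent.N965.LN.Asm2
import Pool.Agent.N965.LN.Err
import Pool.Agent.H510R2.Div

set_option autoImplicit false

/-!
# The error term for one pair of a greatest common divisor and a reduced denominator

The first theorem is the main step of the proof of `Pool.Agent.N965.LN.t_ERR` (helper136), stated for one pair.
-/

open Finset Filter Topology

namespace Pool.Agent.D0H71.LB

open Pool.Agent.N965 Pool.Agent.N965.LN

open Err_ in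
theorem key (hPS : S_PS) (hPSI : S_PSI) {m : ℕ} (ξ : Fin m → ℝ) (hFT : FT ξ) (τ : ℝ) (hτ : 0 < τ)
    (hτ1 : τ ≤ 1) (ψ : ℕ → ℝ) (hψ : ∀ n, 0 < ψ n) (hanti : Antitone ψ) (hsum : Summable ψ)
    (D : ℝ) (hD : 0 < D) (hDψ : ∀ n : ℕ, 1 ≤ n → (n : ℝ) ^ (-(1 + τ)) ≤ D * ψ n) (c : ℝ) (hc : 0 < c) :
    ∃ K : ℝ, 0 ≤ K ∧ ∀ H X g b : ℕ, 1 ≤ H → 1 ≤ X → 1 ≤ g → 1 ≤ b →
      ∑ t ∈ Icc 1 (X / g), (H : ℝ) * ψ (g * t) *
      (∑ v ∈ Icc 1 ⌊1 / (2 * ((b : ℝ) * (c * ψ (g * t))))⌋₊, ∏ i, KK H (((v * t : ℕ) : ℝ) * ξ i)) ≤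
      K * ((H : ℝ) ^ (1 + τ) * (X : ℝ) ^ (1 + 4 * τ)) * (((g : ℝ) ^ (1 + τ))⁻¹ * ((b : ℝ) ^ (1 + τ))⁻¹) := by
  obtain ⟨C1, hC1, hft⟩ := hFT τ hτ
  have hnψ := (hPSI ψ (fun n => (hψ n).le) hanti hsum).1
  set Ψ := ∑' n, ψ n with hΨ
  have hΨ0 : 0 ≤ Ψ := tsum_nonneg fun n => (hψ n).le
  set K := 2 * C1 * Ψ * (D / (2 * c)) ^ (1 + τ) with hK
  have hK0 : 0 ≤ K := by positivity
  refine ⟨K, hK0, ?_⟩
  intro H X g b hH hX hg hb
  have hH0 : (0 : ℝ) < H := by exact_mod_cast (show 0 < H by omega)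
  have hX0 : (0 : ℝ) < X := by exact_mod_cast (show 0 < X by omega)
  have hX1 : (1 : ℝ) ≤ X := by exact_mod_cast hX
  have hg0 : (0 : ℝ) < g := by exact_mod_cast (show 0 < g by omega)
  have hb0 : (0 : ℝ) < b := by exact_mod_cast (show 0 < b by omega)
  obtain ⟨f, hf⟩ : ∃ f : ℕ → ℝ, f = fun t => ∑ v ∈ Icc 1 ⌊1 / (2 * ((b : ℝ) * (c * ψ (g * t))))⌋₊,
    ∏ i, KK H (((v * t : ℕ) : ℝ) * ξ i) := ⟨_, rfl⟩
  have hf0 : ∀ n, 0 ≤ f n := by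
    intro n
    rw [hf]
    exact sum_nonneg fun v _ => pr_nonneg ξ H _
  obtain ⟨Y, hY⟩ : ∃ Y : ℝ, Y = g * (X : ℝ) ^ τ * (D / (2 * c)) * (b : ℝ)⁻¹ := ⟨_, rfl⟩
  have hY0 : 0 < Y := by rw [hY]; positivity
  have hfl : ∀ t, 1 ≤ t → t ≤ X / g →
      ⌊1 / (2 * ((b : ℝ) * (c * ψ (g * t))))⌋₊ ≤ ⌊(t : ℝ) * Y⌋₊ := by
    intro t ht1 ht2
    apply Nat.floor_le_floor
    have ht0 : (0 : ℝ) < t := by exact_mod_cast (show 0 < t by omega)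
    have hgt : g * t ≤ X := (Nat.mul_le_mul_left g ht2).trans (Nat.mul_div_le X g)
    have hgt1 : 1 ≤ g * t := Nat.mul_pos (by omega) (by omega)
    have h1 := hDψ (g * t) hgt1
    have hp := hψ (g * t)
    have hx0 : (0 : ℝ) < ((g * t : ℕ) : ℝ) := by exact_mod_cast hgt1
    have hx : 0 < ((g * t : ℕ) : ℝ) ^ (1 + τ) := Real.rpow_pos_of_pos hx0 _
    have h2 : 1 / (2 * ((b : ℝ) * (c * ψ (g * t)))) = (1 / ψ (g * t)) * (1 / (2 * c)) * (b : ℝ)⁻¹ := by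
      field_simp
    have h3 : 1 / ψ (g * t) ≤ D * ((g * t : ℕ) : ℝ) ^ (1 + τ) := by
      rw [div_le_iff₀ hp]
      rw [Real.rpow_neg hx0.le] at h1
      have h5 : (((g * t : ℕ) : ℝ) ^ (1 + τ))⁻¹ * ((g * t : ℕ) : ℝ) ^ (1 + τ) = 1 := inv_mul_cancel₀ hx.ne'
      have h6 := mul_le_mul_of_nonneg_right h1 hx.le
      rw [h5] at h6
      linarith
    have h4 : ((g * t : ℕ) : ℝ) ^ (1 + τ) ≤ g * t * (X : ℝ) ^ τ := by
      rw [Real.rpow_add hx0, Real.rpow_one]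
      have h5 : ((g * t : ℕ) : ℝ) ^ τ ≤ (X : ℝ) ^ τ :=
        Real.rpow_le_rpow hx0.le (by exact_mod_cast hgt) hτ.le
      have h6 := mul_le_mul_of_nonneg_left h5 hx0.le
      push_cast at h6 ⊢
      exact h6
    rw [h2, hY]
    calc (1 / ψ (g * t)) * (1 / (2 * c)) * (b : ℝ)⁻¹
        ≤ (D * (g * t * (X : ℝ) ^ τ)) * (1 / (2 * c)) * (b : ℝ)⁻¹ := by
          have h7 : 1 / ψ (g * t) ≤ D * (g * t * (X : ℝ) ^ τ) :=
            h3.trans (mul_le_mul_of_nonneg_left h4 hD.le)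
          have h8 : (0 : ℝ) ≤ 1 / (2 * c) := by positivity
          have h9 : (0 : ℝ) ≤ (b : ℝ)⁻¹ := by positivity
          exact mul_le_mul_of_nonneg_right (mul_le_mul_of_nonneg_right h7 h8) h9
      _ = (t : ℝ) * (g * (X : ℝ) ^ τ * (D / (2 * c)) * (b : ℝ)⁻¹) := by ring
  have hsumf : ∀ s : ℕ, s ≤ X / g →
      ∑ t ∈ Icc 1 s, f t ≤ (C1 * Y ^ (1 + τ) * (H : ℝ) ^ τ) * (s : ℝ) ^ (2 + 2 * τ) := by
    intro s hs
    calc ∑ t ∈ Icc 1 s, f t ≤ ∑ t ∈ Icc 1 s, ∑ v ∈ Icc 1 ⌊(t : ℝ) * Y⌋₊,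
          ∏ i, KK H (((v * t : ℕ) : ℝ) * ξ i) := by
          refine sum_le_sum fun t ht => ?_
          rw [mem_Icc] at ht
          rw [hf]
          exact sum_le_sum_of_subset_of_nonneg (Icc_subset_Icc le_rfl (hfl t ht.1 (ht.2.trans hs)))
            fun v _ _ => pr_nonneg ξ H _
      _ ≤ C1 * (Y * (s : ℝ) ^ 2) ^ (1 + τ) * (H : ℝ) ^ τ := hft H hH Y hY0 s
      _ = _ := by
          rw [Real.mul_rpow hY0.le (by positivity), ← Real.rpow_natCast, ← Real.rpow_mul (Nat.cast_nonneg s)]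
          rw [show ((2 : ℕ) : ℝ) * (1 + τ) = 2 + 2 * τ by push_cast; ring]
          ring
  have hps := hPS f (C1 * Y ^ (1 + τ) * (H : ℝ) ^ τ) τ (X / g) hf0 (by positivity) hτ hsumf
  have hXg : ((X / g : ℕ) : ℝ) ≤ X / g := Nat.cast_div_le
  have h5 : ((X / g : ℕ) : ℝ) ^ (1 + 2 * τ) ≤ ((X : ℝ) / g) ^ (1 + 2 * τ) :=
    Real.rpow_le_rpow (Nat.cast_nonneg _) hXg (by linarith)
  have hexp : (X : ℝ) ^ (τ * (1 + τ)) * (X : ℝ) ^ (1 + 2 * τ) ≤ (X : ℝ) ^ (1 + 4 * τ) := by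
    rw [← Real.rpow_add hX0]
    apply Real.rpow_le_rpow_of_exponent_le hX1
    nlinarith
  calc ∑ t ∈ Icc 1 (X / g), (H : ℝ) * ψ (g * t) *
        (∑ v ∈ Icc 1 ⌊1 / (2 * ((b : ℝ) * (c * ψ (g * t))))⌋₊, ∏ i, KK H (((v * t : ℕ) : ℝ) * ξ i))
      ≤ ∑ t ∈ Icc 1 (X / g), (H * Ψ / g) * (f t / t) := by
        refine sum_le_sum fun t ht => ?_
        rw [mem_Icc] at ht
        have ht0 : (0 : ℝ) < t := by exact_mod_cast (show 0 < t by omega)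
        have h6 := hnψ (g * t)
        push_cast at h6
        have h7 : ψ (g * t) ≤ Ψ / (g * t) := by
          rw [le_div_iff₀ (by positivity)]
          linarith
        have h8 : (H : ℝ) * ψ (g * t) * f t ≤ (H : ℝ) * (Ψ / (g * t)) * f t :=
          mul_le_mul_of_nonneg_right (mul_le_mul_of_nonneg_left h7 hH0.le) (hf0 t)
        have h9 : (H : ℝ) * (Ψ / (g * t)) * f t = (H * Ψ / g) * (f t / t) := by
          field_simp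
        rw [h9] at h8
        rw [hf] at h8 ⊢
        exact h8
    _ = (H * Ψ / g) * ∑ t ∈ Icc 1 (X / g), f t / t := by rw [mul_sum]
    _ ≤ (H * Ψ / g) * (2 * (C1 * Y ^ (1 + τ) * (H : ℝ) ^ τ) * ((X : ℝ) / g) ^ (1 + 2 * τ)) := by
        refine mul_le_mul_of_nonneg_left (hps.trans ?_) (by positivity)
        exact mul_le_mul_of_nonneg_left h5 (by positivity)
    _ = K * ((H : ℝ) ^ (1 + τ) * ((X : ℝ) ^ (τ * (1 + τ)) * (X : ℝ) ^ (1 + 2 * τ))) *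
          (((g : ℝ) ^ (1 + τ))⁻¹ * ((b : ℝ) ^ (1 + τ))⁻¹) := by
        rw [hY]
        exact alg hg0 hb0 hX0 hH0 (by positivity)
    _ ≤ K * ((H : ℝ) ^ (1 + τ) * (X : ℝ) ^ (1 + 4 * τ)) * (((g : ℝ) ^ (1 + τ))⁻¹ * ((b : ℝ) ^ (1 + τ))⁻¹) := by
        refine mul_le_mul_of_nonneg_right (mul_le_mul_of_nonneg_left ?_ hK0) (by positivity)
        exact mul_le_mul_of_nonneg_left hexp (by positivity)

end Pool.Agent.D0H71.LB
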