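import Pool.Agent.D0H71.LB.Fam
import Pool.Agent.N965.LN.Low
import Pool.Agent.N965.LN.Cnt

set_option autoImplicit false

/-!
# The bad coefficient vectors
-/

open Finset hiding box
open Filter Topology

namespace Pool.Agent.D0H71.LB

open Pool.Agent.N965 Pool.Agent.N965.LN

theorem dn_sub_int (x : ℝ) (k : ℤ) : dn (x - k) = dn x := by
  unfold dn
  rw [round_sub_intCast]
  push_cast
  congr 1
  ring

/-- the coefficient vectors for which the translated number is close to a fraction with the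
denominator `q` -/
noncomputable def VbT {m : ℕ} (ξ : Fin m → ℝ) (β : ℝ) (b H q : ℕ) (δ : ℝ) :
    Finset (ℤ × (Fin m → ℤ)) :=
  (co m b H).filter fun x => dn ((q : ℝ) * (β + num ξ b x.1 x.2)) ≤ δ

theorem card_VbT {m : ℕ} (ξ : Fin m → ℝ) (β : ℝ) (b H q : ℕ) (δ : ℝ) (hb : 1 ≤ b) :
    (VbT ξ β b H q δ).card ≤ (Vb ξ b (2 * H) q (2 * δ)).card := by
  classical
  rcases (VbT ξ β b H q δ).eq_empty_or_nonempty with h | ⟨y, hy⟩
  · rw [h]
    simp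
  have hb' : (0 : ℤ) < (b : ℤ) := by omega
  have hbR : (0 : ℝ) < (b : ℝ) := by exact_mod_cast hb
  refine Finset.card_le_card_of_injOn (fun x => ((x.1 - y.1) % (b : ℤ), x.2 - y.2)) ?_ ?_
  · intro x hx
    rw [Finset.mem_coe] at hx ⊢
    unfold VbT co at hx hy
    unfold Vb co
    rw [Finset.mem_filter, Finset.mem_product] at hx hy ⊢
    simp only
    refine ⟨⟨?_, ?_⟩, ?_⟩
    · rw [Finset.mem_Ico]
      exact ⟨Int.emod_nonneg _ hb'.ne', Int.emod_lt_of_pos _ hb'⟩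
    · have h1 := hx.1.2
      have h2 := hy.1.2
      unfold LN.box at h1 h2 ⊢
      rw [Fintype.mem_piFinset] at h1 h2 ⊢
      intro i
      have h3 := h1 i
      have h4 := h2 i
      rw [Finset.mem_Icc] at h3 h4 ⊢
      rw [Pi.sub_apply]
      push_cast
      constructor <;> omega
    · have h1 : (q : ℝ) * num ξ b ((x.1 - y.1) % (b : ℤ)) (x.2 - y.2) =
          ((q : ℝ) * (β + num ξ b x.1 x.2) - (q : ℝ) * (β + num ξ b y.1 y.2)) -
            (((q : ℤ) * ((x.1 - y.1) / (b : ℤ)) : ℤ) : ℝ) := by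
        have h2 : (((x.1 - y.1) % (b : ℤ) : ℤ) : ℝ) =
            (x.1 : ℝ) - y.1 - b * (((x.1 - y.1) / (b : ℤ) : ℤ) : ℝ) := by
          have h3 := Int.emod_add_mul_ediv (x.1 - y.1) (b : ℤ)
          have h4 : (((x.1 - y.1) % (b : ℤ) : ℤ) : ℝ) + b * (((x.1 - y.1) / (b : ℤ) : ℤ) : ℝ) =
              (x.1 : ℝ) - y.1 := by exact_mod_cast h3
          linarith
        unfold num
        rw [h2]
        have h5 : ∑ i, (((x.2 - y.2) i : ℤ) : ℝ) * ξ i =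
            ∑ i, (x.2 i : ℝ) * ξ i - ∑ i, (y.2 i : ℝ) * ξ i := by
          rw [← Finset.sum_sub_distrib]
          refine Finset.sum_congr rfl fun i _ => ?_
          rw [Pi.sub_apply]
          push_cast
          ring
        rw [h5]
        push_cast
        field_simp
        ring
      rw [h1, dn_sub_int]
      refine (LN.CntL.dn_sub_le _ _).trans ?_
      linarith [hx.2, hy.2]
  · intro x hx x' hx' h
    rw [Finset.mem_coe] at hx hx'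
    unfold VbT co at hx hx'
    rw [Finset.mem_filter, Finset.mem_product, Finset.mem_Ico] at hx hx'
    simp only [Prod.mk.injEq] at h
    have h1 : x.2 = x'.2 := by
      have := h.2
      exact sub_left_injective this
    have h2 : x.1 = x'.1 := by
      have h3 : (x.1 - y.1) ≡ (x'.1 - y.1) [ZMOD b] := h.1
      have h4 : x.1 ≡ x'.1 [ZMOD b] := by
        have := h3.add_right y.1
        simpa using this
      have h5 : x.1 % b = x'.1 % b := h4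
      rw [Int.emod_eq_of_lt hx.1.1.1 hx.1.1.2, Int.emod_eq_of_lt hx'.1.1.1 hx'.1.1.2] at h5
      exact h5
    exact Prod.ext h2 h1

/-- the bad coefficient vectors -/
def Bad {m : ℕ} (ξ : Fin m → ℝ) (β : ℝ) (ψ : ℕ → ℝ) (b H : ℕ) (Y c : ℝ) :
    Set (ℤ × (Fin m → ℤ)) :=
  {x | x ∈ co m b H ∧ ∃ (p : ℤ) (q : ℕ), 1 ≤ q ∧ (q : ℝ) ≤ Y ∧
    |β + num ξ b x.1 x.2 - (p : ℝ) / q| ≤ c * ψ q / q}

theorem bad_sub {m : ℕ} (ξ : Fin m → ℝ) (β : ℝ) (ψ : ℕ → ℝ) (b H X : ℕ) (Y c : ℝ) (hX : ⌊Y⌋₊ ≤ X) :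
    Bad ξ β ψ b H Y c ⊆
      (((Icc 1 X).biUnion fun q => VbT ξ β b H q (c * ψ q) : Finset (ℤ × (Fin m → ℤ))) :
        Set (ℤ × (Fin m → ℤ))) := by
  rintro x ⟨h1, p, q, h6, h7, h8⟩
  rw [Finset.mem_coe, Finset.mem_biUnion]
  refine ⟨q, Finset.mem_Icc.2 ⟨h6, (Nat.le_floor h7).trans hX⟩, ?_⟩
  unfold VbT
  rw [Finset.mem_filter]
  refine ⟨h1, ?_⟩
  have hq : (0 : ℝ) < q := by exact_mod_cast h6
  refine (LN.dn_le _ p).trans ?_
  have h9 : (q : ℝ) * (β + num ξ b x.1 x.2) - p = q * (β + num ξ b x.1 x.2 - (p : ℝ) / q) := by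
    field_simp
  rw [h9, abs_mul, abs_of_pos hq]
  have h10 := mul_le_mul_of_nonneg_left h8 hq.le
  refine h10.trans (le_of_eq ?_)
  field_simp

theorem bad_card {m : ℕ} (ξ : Fin m → ℝ) (β : ℝ) (ψ : ℕ → ℝ) (b H X : ℕ) (Y c : ℝ)
    (hX : ⌊Y⌋₊ ≤ X) (hb : 1 ≤ b) :
    (Bad ξ β ψ b H Y c).Finite ∧ ((Bad ξ β ψ b H Y c).ncard : ℝ) ≤
      ∑ q ∈ Icc 1 X, ((Vb ξ b (2 * H) q (2 * c * ψ q)).card : ℝ) := by
  classical
  have h1 := bad_sub ξ β ψ b H X Y c hX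
  refine ⟨(Finset.finite_toSet _).subset h1, ?_⟩
  have h2 := Set.ncard_le_ncard h1 (Finset.finite_toSet _)
  rw [Set.ncard_coe_finset] at h2
  have h3 : ((Icc 1 X).biUnion fun q => VbT ξ β b H q (c * ψ q)).card ≤
      ∑ q ∈ Icc 1 X, (Vb ξ b (2 * H) q (2 * c * ψ q)).card := by
    refine Finset.card_biUnion_le.trans (Finset.sum_le_sum fun q _ => ?_)
    rw [mul_assoc]
    exact card_VbT ξ β b H q _ hb
  have h4 := h2.trans h3
  exact_mod_cast h4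

theorem bad_mono {m : ℕ} (ξ : Fin m → ℝ) (β : ℝ) (ψ ψ' : ℕ → ℝ) (b H : ℕ) (Y Y' c c' : ℝ)
    (hY : Y ≤ Y') (hc : c ≤ c') (hc0 : 0 ≤ c') (hψ' : ∀ n, 0 ≤ ψ n) (hψ : ∀ n, ψ n ≤ ψ' n) :
    Bad ξ β ψ b H Y c ⊆ Bad ξ β ψ' b H Y' c' := by
  rintro x ⟨h1, p, q, h6, h7, h8⟩
  refine ⟨h1, p, q, h6, h7.trans hY, h8.trans ?_⟩
  have hq : (0 : ℝ) < q := by exact_mod_cast h6
  refine div_le_div_of_nonneg_right ?_ hq.le
  exact (mul_le_mul_of_nonneg_right hc (hψ' q)).trans (mul_le_mul_of_nonneg_left (hψ q) hc0)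

/-- **The translated families.** -/
theorem main (hRES : S_RES) (hFEJ : S_FEJ) (hPS : S_PS) (hPSI : S_PSI) {m : ℕ} (hm : 1 ≤ m)
    (ξ : Fin m → ℝ) (hFT : FT ξ) (κ : ℝ) (hκ : κ < 1) (ψ : ℕ → ℝ) (hψ0 : ∀ q, 0 ≤ ψ q)
    (hψ : Antitone ψ) (hs : Summable ψ) (η : ℝ) (hη : 0 < η) :
    ∃ c : ℝ, 0 < c ∧ ∃ N₀ : ℕ, ∀ b H : ℕ, 1 ≤ b → 1 ≤ H → N₀ ≤ b * (2 * H + 1) ^ m → ∀ β : ℝ,
      ((Bad ξ β ψ b H (((b * (2 * H + 1) ^ m : ℕ) : ℝ) ^ κ) c).ncard : ℝ) ≤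
        η * ((b * (2 * H + 1) ^ m : ℕ) : ℝ) := by
  set κ' := max κ 0 with hκ'
  have hκ0 : 0 ≤ κ' := le_max_right _ _
  have hκκ : κ ≤ κ' := le_max_left _ _
  have hκ1 : κ' < 1 := max_lt hκ one_pos
  set τ := (1 - κ') / 10 with hτ
  have hτ0 : 0 < τ := by rw [hτ]; linarith
  have hτ1 : τ ≤ 1 := by rw [hτ]; linarith
  set e := τ + κ' * (1 + 4 * τ) with he
  have he2 : 0 < 1 - e := by
    have h1 : κ' * τ ≤ 1 * τ := mul_le_mul_of_nonneg_right hκ1.le hτ0.le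
    rw [he, hτ] at *
    nlinarith
  have he0 : 0 ≤ e := by positivity
  set φ : ℕ → ℝ := fun n => ((n : ℝ) + 1) ^ (-(1 + τ)) with hφ
  have hφ0 : ∀ n, 0 < φ n := fun n => by
    simp only [hφ]
    positivity
  have hφa : Antitone φ := by
    intro a b hab
    simp only [hφ]
    apply Real.rpow_le_rpow_of_nonpos (by positivity) _ (by linarith)
    have : (a : ℝ) ≤ b := by exact_mod_cast hab
    linarith
  have hφs : Summable φ := by
    have h1 : Summable (fun n : ℕ => ((n : ℝ)) ^ (-(1 + τ))) :=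
      Real.summable_nat_rpow.2 (by linarith)
    have h2 := (summable_nat_add_iff 1).2 h1
    refine h2.congr fun n => ?_
    simp only [hφ]
    push_cast
    rfl
  set ψ' : ℕ → ℝ := fun n => ψ n + φ n with hψ'
  have hψ'0 : ∀ n, 0 < ψ' n := fun n => by
    have h1 := hφ0 n
    have h2 := hψ0 n
    simp only [hψ']
    linarith
  have hψ'a : Antitone ψ' := fun a b hab => add_le_add (hψ hab) (hφa hab)
  have hψ's : Summable ψ' := hs.add hφs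
  set Ψ := ∑' n, ψ' n with hΨ
  have hΨ0 : 0 < Ψ := hψ's.tsum_pos (fun n => (hψ'0 n).le) 0 (hψ'0 0)
  have hD : ∀ n : ℕ, 1 ≤ n → (n : ℝ) ^ (-(1 + τ)) ≤ (2 : ℝ) ^ (1 + τ) * ψ' n := by
    intro n hn
    have hn' : (1 : ℝ) ≤ n := by exact_mod_cast hn
    have h1 : (2 * (n : ℝ)) ^ (-(1 + τ)) ≤ φ n := by
      simp only [hφ]
      exact Real.rpow_le_rpow_of_nonpos (by positivity) (by linarith) (by linarith)
    have h2 : (2 * (n : ℝ)) ^ (-(1 + τ)) = (2 : ℝ) ^ (-(1 + τ)) * (n : ℝ) ^ (-(1 + τ)) :=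
      Real.mul_rpow (by norm_num) (by positivity)
    have h3 : (2 : ℝ) ^ (1 + τ) * (2 : ℝ) ^ (-(1 + τ)) = 1 := by
      rw [← Real.rpow_add (by norm_num)]
      simp
    have h4 : (0 : ℝ) < (2 : ℝ) ^ (1 + τ) := by positivity
    calc (n : ℝ) ^ (-(1 + τ)) = (2 : ℝ) ^ (1 + τ) * (2 * (n : ℝ)) ^ (-(1 + τ)) := by
          rw [h2, ← mul_assoc, h3, one_mul]
      _ ≤ (2 : ℝ) ^ (1 + τ) * φ n := mul_le_mul_of_nonneg_left h1 h4.le
      _ ≤ (2 : ℝ) ^ (1 + τ) * ψ' n := by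
          refine mul_le_mul_of_nonneg_left ?_ h4.le
          have := hψ0 n
          simp only [hψ']
          linarith
  set B : ℝ := 16 * 3 ^ m + 40 * 4 ^ m with hB
  have hB0 : 0 < B := by positivity
  set c₁ := η / (4 * B * Ψ) with hc₁
  have hc₁0 : 0 < c₁ := by positivity
  have hBc : B * (2 * c₁) * Ψ = η / 2 := by
    rw [hc₁]
    field_simp
    ring
  obtain ⟨C, hC, hE⟩ := sum_Vb hRES hFEJ hPS hPSI ξ hFT τ hτ0 hτ1 ψ' hψ'0 hψ'a hψ's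
    ((2 : ℝ) ^ (1 + τ)) (by positivity) hD (2 * c₁) (by positivity)
  obtain ⟨N₀, hN₀⟩ : ∃ N₀ : ℕ, ∀ N : ℕ, N₀ ≤ N → C / (η / 2) ≤ (N : ℝ) ^ (1 - e) := by
    have h1 := ((tendsto_rpow_atTop he2).comp tendsto_natCast_atTop_atTop).eventually_ge_atTop
      (C / (η / 2))
    exact Filter.eventually_atTop.1 h1
  refine ⟨c₁, hc₁0, N₀, fun b H hb hH hN β => ?_⟩
  set N := b * (2 * H + 1) ^ m with hNdef
  have hN1 : 1 ≤ N := Nat.mul_pos hb (by positivity)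
  have hN1' : (1 : ℝ) ≤ N := by exact_mod_cast hN1
  have hNp : (0 : ℝ) < N := by linarith
  set X := ⌊(N : ℝ) ^ κ'⌋₊ with hX
  have hX1 : 1 ≤ X := by
    apply Nat.le_floor
    rw [Nat.cast_one]
    exact Real.one_le_rpow hN1' hκ0
  have hXle : (X : ℝ) ≤ (N : ℝ) ^ κ' := Nat.floor_le (by positivity)
  have hsub : Bad ξ β ψ b H ((N : ℝ) ^ κ) c₁ ⊆ Bad ξ β ψ' b H ((N : ℝ) ^ κ') c₁ := by
    refine bad_mono ξ β ψ ψ' b H _ _ _ _ (Real.rpow_le_rpow_of_exponent_le hN1' hκκ)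
      le_rfl hc₁0.le hψ0 fun n => ?_
    have := hφ0 n
    simp only [hψ']
    linarith
  obtain ⟨hfin, hcard⟩ := bad_card ξ β ψ' b H X ((N : ℝ) ^ κ') c₁ le_rfl hb
  have h1 : ((Bad ξ β ψ b H ((N : ℝ) ^ κ) c₁).ncard : ℝ) ≤
      ((Bad ξ β ψ' b H ((N : ℝ) ^ κ') c₁).ncard : ℝ) := by
    exact_mod_cast Set.ncard_le_ncard hsub hfin
  have h2 := hE b (2 * H) X hb (by omega) hX1
  have hHN : ((2 * H : ℕ) : ℝ) ≤ N := by
    have h3 : 2 * H ≤ N := by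
      calc 2 * H ≤ (2 * H + 1) ^ 1 := by rw [pow_one]; omega
        _ ≤ (2 * H + 1) ^ m := Nat.pow_le_pow_right (by omega) hm
        _ = 1 * (2 * H + 1) ^ m := (one_mul _).symm
        _ ≤ N := Nat.mul_le_mul_right _ hb
    exact_mod_cast h3
  have hbN : (b : ℝ) * (((2 * H : ℕ) : ℝ)) ^ m ≤ N := by
    have h3 : b * (2 * H) ^ m ≤ N := Nat.mul_le_mul_left _ (Nat.pow_le_pow_left (by omega) m)
    exact_mod_cast h3
  have h3 : (X : ℝ) ^ (1 + 4 * τ) ≤ (N : ℝ) ^ (κ' * (1 + 4 * τ)) := by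
    rw [Real.rpow_mul hNp.le]
    exact Real.rpow_le_rpow (by positivity) hXle (by positivity)
  have h3' : (((2 * H : ℕ) : ℝ)) ^ τ ≤ (N : ℝ) ^ τ :=
    Real.rpow_le_rpow (by positivity) hHN hτ0.le
  have h4 : (((2 * H : ℕ) : ℝ)) ^ τ * (X : ℝ) ^ (1 + 4 * τ) ≤ (N : ℝ) ^ e := by
    calc (((2 * H : ℕ) : ℝ)) ^ τ * (X : ℝ) ^ (1 + 4 * τ) ≤
          (N : ℝ) ^ τ * (N : ℝ) ^ (κ' * (1 + 4 * τ)) :=
          mul_le_mul h3' h3 (by positivity) (by positivity)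
      _ = (N : ℝ) ^ e := by rw [he, Real.rpow_add hNp]
  have h5 : C * (N : ℝ) ^ e ≤ η / 2 * N := by
    have h6 := hN₀ N hN
    rw [div_le_iff₀ (by positivity)] at h6
    have h7 : (N : ℝ) = (N : ℝ) ^ (1 - e) * (N : ℝ) ^ e := by
      rw [← Real.rpow_add hNp]
      simp
    have h8 : (0 : ℝ) ≤ (N : ℝ) ^ e := by positivity
    calc C * (N : ℝ) ^ e ≤ ((N : ℝ) ^ (1 - e) * (η / 2)) * (N : ℝ) ^ e :=
          mul_le_mul_of_nonneg_right h6 h8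
      _ = η / 2 * ((N : ℝ) ^ (1 - e) * (N : ℝ) ^ e) := by ring
      _ = η / 2 * N := by rw [← h7]
  have h6 : B * (2 * c₁) * Ψ * (b * (((2 * H : ℕ) : ℝ)) ^ m) ≤ η / 2 * N := by
    rw [hBc]
    exact mul_le_mul_of_nonneg_left hbN (by positivity)
  calc ((Bad ξ β ψ b H ((N : ℝ) ^ κ) c₁).ncard : ℝ) ≤
        B * (2 * c₁) * Ψ * (b * (((2 * H : ℕ) : ℝ)) ^ m) +
          C * ((((2 * H : ℕ) : ℝ)) ^ τ * (X : ℝ) ^ (1 + 4 * τ)) :=
        h1.trans (hcard.trans h2)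
    _ ≤ η / 2 * N + C * (N : ℝ) ^ e := add_le_add h6 (mul_le_mul_of_nonneg_left h4 hC.le)
    _ ≤ η / 2 * N + η / 2 * N := by linarith
    _ = η * N := by ring

/-- **The families themselves**, without the rational elements. -/
theorem main_zero (hRES : S_RES) (hFEJ : S_FEJ) (hPS : S_PS) (hPSI : S_PSI) (hSMALL : S_SMALL)
    {m : ℕ} (hm : 1 ≤ m) (ξ : Fin m → ℝ) (hind : Indep ξ) (hFT : FT ξ) (κ : ℝ) (hκ : κ < 1)
    (ψ : ℕ → ℝ) (hψ0 : ∀ q, 0 ≤ ψ q) (hψ : Antitone ψ) (hs : Summable ψ) (η : ℝ) (hη : 0 < η) :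
    ∃ c : ℝ, 0 < c ∧ ∀ b H : ℕ, 1 ≤ b → 1 ≤ H →
      (({x ∈ Bad ξ 0 ψ b H (((b * (2 * H + 1) ^ m : ℕ) : ℝ) ^ κ) c | x.2 ≠ 0}).ncard : ℝ) ≤
        η * ((b * (2 * H + 1) ^ m : ℕ) : ℝ) := by
  obtain ⟨c₁, hc₁, N₀, h⟩ := main hRES hFEJ hPS hPSI hm ξ hFT κ hκ ψ hψ0 hψ hs η hη
  obtain ⟨c₂, hc₂, h2⟩ := hSMALL m ξ hind ψ N₀ N₀
  refine ⟨min c₁ c₂, lt_min hc₁ hc₂, fun b H hb hH => ?_⟩
  set N := b * (2 * H + 1) ^ m with hNdef
  have hN1 : 1 ≤ N := Nat.mul_pos hb (by positivity)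
  have hN1' : (1 : ℝ) ≤ N := by exact_mod_cast hN1
  rcases le_total N₀ N with hN | hN
  · have h3 := h b H hb hH hN 0
    refine le_trans ?_ h3
    have hfin := (bad_card ξ 0 ψ b H _ ((N : ℝ) ^ κ) c₁ le_rfl hb).1
    have hsub : {x ∈ Bad ξ 0 ψ b H ((N : ℝ) ^ κ) (min c₁ c₂) | x.2 ≠ 0} ⊆
        Bad ξ 0 ψ b H ((N : ℝ) ^ κ) c₁ := fun x hx =>
      bad_mono ξ 0 ψ ψ b H _ _ _ _ le_rfl (min_le_left _ _) hc₁.le hψ0 (fun _ => le_rfl) hx.1
    exact_mod_cast Set.ncard_le_ncard hsub hfin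
  · have hempty : {x ∈ Bad ξ 0 ψ b H ((N : ℝ) ^ κ) (min c₁ c₂) | x.2 ≠ 0} = ∅ := by
      rw [Set.eq_empty_iff_forall_notMem]
      rintro x ⟨⟨h3, p, q, h4, h5, h6⟩, h7⟩
      unfold co at h3
      rw [Finset.mem_product, Finset.mem_Ico] at h3
      have hbN : b ≤ N₀ := by
        refine le_trans ?_ hN
        calc b = b * 1 := (mul_one b).symm
          _ ≤ N := Nat.mul_le_mul_left _ (Nat.one_le_pow _ _ (by omega))
      have hHN : H ≤ N₀ := by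
        refine le_trans ?_ hN
        calc H ≤ (2 * H + 1) ^ 1 := by rw [pow_one]; omega
          _ ≤ (2 * H + 1) ^ m := Nat.pow_le_pow_right (by omega) hm
          _ = 1 * (2 * H + 1) ^ m := (one_mul _).symm
          _ ≤ N := Nat.mul_le_mul_right _ hb
      have hq : q ≤ N₀ := by
        have h8 : (q : ℝ) ≤ N := by
          refine h5.trans ?_
          calc (N : ℝ) ^ κ ≤ (N : ℝ) ^ (1 : ℝ) := Real.rpow_le_rpow_of_exponent_le hN1' hκ.le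
            _ = N := Real.rpow_one _
        have h9 : q ≤ N := by exact_mod_cast h8
        exact h9.trans hN
      have h8 : x.2 ∈ LN.box m N₀ := by
        have h9 := h3.2
        unfold LN.box at h9 ⊢
        rw [Fintype.mem_piFinset] at h9 ⊢
        intro i
        have h10 := h9 i
        rw [Finset.mem_Icc] at h10 ⊢
        constructor <;> omega
      have h9 := h2 b x.1 x.2 hb hbN (by rw [Finset.mem_Icc]; constructor <;> omega) h8 h7 p q h4 hq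
      have hq0 : (0 : ℝ) < q := by exact_mod_cast h4
      have h10 : min c₁ c₂ * ψ q / q ≤ c₂ * ψ q / q :=
        div_le_div_of_nonneg_right (mul_le_mul_of_nonneg_right (min_le_right _ _) (hψ0 q)) hq0.le
      rw [zero_add] at h6
      linarith
    rw [hempty, Set.ncard_empty]
    push_cast
    positivity

end Pool.Agent.D0H71.LB
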